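import Pool.Agent.KS6_29.BV.Uniq
import Pool.Agent.KS6_29.BV.Pairs

/-!
# How much choice does `Δ¹₁`-comprehension over Basic Law V prove?

Exactly one solution: `Δ¹₁`-comprehension proves `Σ¹₁`-choice.  Exactly two solutions: it does not,
even for arithmetical formulas.
-/

set_option autoImplicit false

namespace Pool.Agent.Results.MP_4cf54b_lc.ChoiceFromPairsFails

open Q204.BL Pool.Agent.KS6_29.BV

/-- `Σ¹₁`-choice for formulas with exactly one solution `P` for every tuple `x`. -/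
def UniqueSigmaChoice (𝔐 : Str) : Prop :=
  ∀ (k m : ℕ) (l : List (ℕ × ℕ)) (φ : AF) (V : RA 𝔐) (v : ℕ → 𝔐.M),
    (∀ x : Fin (k + 1) → 𝔐.M, ∃! P : 𝔐.S m, SatEx φ l (V.upd m 0 P) (ovr x v)) →
    ∃ R : 𝔐.S (k + m + 1), ∀ (x : Fin (k + 1) → 𝔐.M) (P : 𝔐.S m),
      (∀ y, y ∈ P.1 ↔ join x y ∈ R.1) → SatEx φ l (V.upd m 0 P) (ovr x v)

/-- Choice for arithmetical formulas `φ(x, P)` with exactly two solutions for every object `x`;
`P` is a variable for sets. -/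
def PairChoice (𝔐 : Str) : Prop :=
  ∀ (φ : AF) (V : RA 𝔐) (v : ℕ → 𝔐.M),
    (∀ x : Fin 1 → 𝔐.M, ∃ P Q : 𝔐.S 0, P ≠ Q ∧
      ∀ T : 𝔐.S 0, φ.Sat (V.upd 0 0 T) (ovr x v) ↔ T = P ∨ T = Q) →
    ∃ R : 𝔐.S 1, ∀ (x : Fin 1 → 𝔐.M) (P : 𝔐.S 0),
      (∀ y, y ∈ P.1 ↔ join (k := 0) (m := 0) x y ∈ R.1) → φ.Sat (V.upd 0 0 P) (ovr x v)

/-- `Δ¹₁`-comprehension proves `Σ¹₁`-choice for formulas with exactly one solution; `Δ¹₁-BL₀` does
not prove choice for arithmetical formulas with exactly two solutions, in particular it does not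
prove `Σ¹₁`-choice. -/
theorem result :
    (∀ 𝔐 : Str, DeltaComp 𝔐 → UniqueSigmaChoice 𝔐) ∧
    ∃ 𝔐 : Str, BLV 𝔐 ∧ ArithComp 𝔐 ∧ DeltaComp 𝔐 ∧ ¬ SigmaChoice 𝔐 ∧ ¬ PairChoice 𝔐 := by
  refine ⟨fun 𝔐 h => uniqueChoice h, NN, blv, arithComp, deltaComp, fun h => not_choice h.arith, ?_⟩
  intro h
  obtain ⟨R, hR⟩ := h phi2 V₀ (fun _ => o₀) two_solutions
  exact no_phi2_choice R hR

end Pool.Agent.Results.MP_4cf54b_lc.ChoiceFromPairsFails
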